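import Mathlib
import Pool.Graph.R_seed8.Helper853.Fb.Exh
import Pool.Graph.R_seed8.Helper853.Fb.Vol2

set_option autoImplicit false

namespace Pool.Agent.Results.MP_09af40_an.FiniteVolume

open MeasureTheory Pool.Agent.Helper853.Fb

/-- Truncated functions of a plurisubharmonic function bounded above. -/
lemma trunc {u : (Fin 3 → ℂ) → EReal} (husc : UpperSemicontinuousOn u Om) {M : ℝ}
    (hM : ∀ z ∈ Om, u z ≤ (M : EReal)) (N : ℝ)
    (hsm : ∀ a b : Fin 3 → ℂ, (∀ ζ : ℂ, ‖ζ‖ ≤ 1 → a + ζ • b ∈ Om) →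
      (max (u a) (N : EReal)).toReal ≤ (1 / (2 * Real.pi)) *
        ∫ θ in (0:ℝ)..(2 * Real.pi),
          (max (u (a + Complex.exp ((θ : ℂ) * Complex.I) • b)) (N : EReal)).toReal) :
    BPsh Om (fun z => (max (u z) (N : EReal)).toReal) (|M| + |N|) := by
  have hne : ∀ z ∈ Om, max (u z) (N : EReal) ≠ ⊤ ∧ max (u z) (N : EReal) ≠ ⊥ := by
    intro z hz
    constructor
    · apply ne_of_lt
      exact max_lt (lt_of_le_of_lt (hM z hz) (EReal.coe_lt_top M)) (EReal.coe_lt_top N)
    · apply ne_of_gt
      exact lt_of_lt_of_le (EReal.bot_lt_coe N) (le_max_right _ _)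
  have hco : ∀ z ∈ Om, (((max (u z) (N : EReal)).toReal : ℝ) : EReal) = max (u z) (N : EReal) :=
    fun z hz => EReal.coe_toReal (hne z hz).1 (hne z hz).2
  refine ⟨?_, ?_, hsm⟩
  · intro x hx y hy
    have h1 : max (u x) (N : EReal) < (y : EReal) := by
      rw [← hco x hx]
      exact EReal.coe_lt_coe_iff.2 hy
    have h2 : u x < (y : EReal) := lt_of_le_of_lt (le_max_left _ _) h1
    have h3 : (N : EReal) < (y : EReal) := lt_of_le_of_lt (le_max_right _ _) h1
    have h4 := husc x hx (y : EReal) h2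
    filter_upwards [h4, self_mem_nhdsWithin] with z hz hzm
    have h5 : max (u z) (N : EReal) < (y : EReal) := max_lt hz h3
    rw [← hco z hzm] at h5
    exact EReal.coe_lt_coe_iff.1 h5
  · intro z hz
    have h1 : (N : EReal) ≤ max (u z) (N : EReal) := le_max_right _ _
    have h2 : max (u z) (N : EReal) ≤ ((max M N : ℝ) : EReal) := by
      apply max_le
      · exact (hM z hz).trans (EReal.coe_le_coe_iff.2 (le_max_left _ _))
      · exact EReal.coe_le_coe_iff.2 (le_max_right _ _)
    rw [← hco z hz] at h1 h2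
    have h3 := EReal.coe_le_coe_iff.1 h1
    have h4 := EReal.coe_le_coe_iff.1 h2
    rw [abs_le]
    have h5 := neg_abs_le N
    have h6 := le_abs_self M
    have h7 := le_abs_self N
    have h8 := abs_nonneg M
    have h9 := abs_nonneg N
    constructor
    · linarith
    · rcases max_cases M N with ⟨h, _⟩ | ⟨h, _⟩ <;> rw [h] at h4 <;> linarith

/-- **A pseudoconvex domain of finite volume in `ℂ³` without nonconstant plurisubharmonic functions
bounded above.**  There is a connected open pseudoconvex `Ω ⊆ ℂ³` with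

(1) finite Lebesgue measure, so that the constants lie in the Bergman space `A^p(Ω)` for every `p`;

(2) every plurisubharmonic function `u : Ω → [-∞, ∞)` that is bounded ABOVE (not only bounded) is
constant, where the sub-mean value inequality on analytic discs is required of all truncations
`max (u, N)`;

(3) every bounded holomorphic function on `Ω` is constant, although
(4) `Ω` carries the nonconstant plurisubharmonic exhaustion `φ` (it is pseudoconvex). -/
theorem result :
    ∃ Ω : Set (Fin 3 → ℂ), IsOpen Ω ∧ IsConnected Ω ∧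
      (∃ φ : (Fin 3 → ℂ) → ℝ, ContinuousOn φ Ω ∧
        (∀ a b : Fin 3 → ℂ, (∀ ζ : ℂ, ‖ζ‖ ≤ 1 → a + ζ • b ∈ Ω) →
          φ a ≤ (1 / (2 * Real.pi)) *
            ∫ θ in (0:ℝ)..(2 * Real.pi), φ (a + Complex.exp ((θ : ℂ) * Complex.I) • b)) ∧
        ∀ c : ℝ, IsCompact (closure {z | z ∈ Ω ∧ φ z < c}) ∧
          closure {z | z ∈ Ω ∧ φ z < c} ⊆ Ω) ∧
      volume Ω < ⊤ ∧
      (∀ p : ENNReal, MemLp (fun _ : Fin 3 → ℂ => (1 : ℂ)) p (volume.restrict Ω)) ∧
      (∀ u : (Fin 3 → ℂ) → EReal, UpperSemicontinuousOn u Ω →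
        (∃ M : ℝ, ∀ z ∈ Ω, u z ≤ (M : EReal)) →
        (∀ N : ℝ, ∀ a b : Fin 3 → ℂ, (∀ ζ : ℂ, ‖ζ‖ ≤ 1 → a + ζ • b ∈ Ω) →
          (max (u a) (N : EReal)).toReal ≤ (1 / (2 * Real.pi)) *
            ∫ θ in (0:ℝ)..(2 * Real.pi),
              (max (u (a + Complex.exp ((θ : ℂ) * Complex.I) • b)) (N : EReal)).toReal) →
        ∀ z ∈ Ω, ∀ w ∈ Ω, u z = u w) ∧
      (∀ f : (Fin 3 → ℂ) → ℂ, DifferentiableOn ℂ f Ω → (∃ M : ℝ, ∀ z ∈ Ω, ‖f z‖ ≤ M) →
        ∀ z ∈ Ω, ∀ w ∈ Ω, f z = f w) := by
  refine ⟨Om, isOpen_Om, isConnected_Om, ⟨ph, ph_continuousOn, ph_sm, ph_sublevel⟩, vol_Om, ?_, ?_,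
    ?_⟩
  · intro p
    have : IsFiniteMeasure (volume.restrict Om) := by
      constructor
      rw [Measure.restrict_apply_univ]
      exact vol_Om
    exact memLp_const 1
  · intro u husc hbd hsm z hz w hw
    obtain ⟨M, hM⟩ := hbd
    have key : ∀ N : ℝ, max (u z) (N : EReal) = max (u w) (N : EReal) := by
      intro N
      have hB := trunc husc hM N (hsm N)
      have h1 := eq_zero_val hB hz
      have h2 := eq_zero_val hB hw
      have h3 : (max (u z) (N : EReal)).toReal = (max (u w) (N : EReal)).toReal := h1.trans h2.symm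
      have hne : ∀ z ∈ Om, max (u z) (N : EReal) ≠ ⊤ ∧ max (u z) (N : EReal) ≠ ⊥ := by
        intro z hz
        constructor
        · apply ne_of_lt
          exact max_lt (lt_of_le_of_lt (hM z hz) (EReal.coe_lt_top M)) (EReal.coe_lt_top N)
        · apply ne_of_gt
          exact lt_of_lt_of_le (EReal.bot_lt_coe N) (le_max_right _ _)
      rw [← EReal.coe_toReal (hne z hz).1 (hne z hz).2, h3,
        EReal.coe_toReal (hne w hw).1 (hne w hw).2]
    -- comparison of all truncations
    have hle : ∀ x y : EReal, (∀ N : ℝ, max x (N : EReal) = max y (N : EReal)) → x ≤ y := by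
      intro x y hxy
      by_contra hcon
      push Not at hcon
      obtain ⟨N, hN1, hN2⟩ := EReal.lt_iff_exists_real_btwn.1 hcon
      have h1 := hxy N
      rw [max_eq_left hN2.le, max_eq_right hN1.le] at h1
      exact absurd h1 (ne_of_gt hN2)
    exact le_antisymm (hle _ _ key) (hle _ _ fun N => (key N).symm)
  · intro f hf hbd z hz w hw
    obtain ⟨M, hM⟩ := hbd
    have hmean : ∀ a b : Fin 3 → ℂ, (∀ ζ : ℂ, ‖ζ‖ ≤ 1 → a + ζ • b ∈ Om) →
        Real.circleAverage (fun ξ : ℂ => f (a + ξ • b)) 0 1 = f a ∧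
        CircleIntegrable (fun ξ : ℂ => f (a + ξ • b)) 0 1 := by
      intro a b hab
      have hg : DifferentiableOn ℂ (fun ξ : ℂ => f (a + ξ • b)) {ξ : ℂ | a + ξ • b ∈ Om} := by
        apply hf.comp
        · fun_prop
        · intro ξ hξ
          exact hξ
      have hsub : Metric.closedBall (0:ℂ) 1 ⊆ {ξ : ℂ | a + ξ • b ∈ Om} := by
        intro ξ hξ
        apply hab
        simpa using hξ
      have hd := hg.diffContOnCl_ball hsub
      constructor
      · have hd' : DiffContOnCl ℂ (fun ξ : ℂ => f (a + ξ • b)) (Metric.ball (0:ℂ) |1|) := by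
          simpa using hd
        have h1 := hd'.circleAverage
        simpa using h1
      · apply ContinuousOn.circleIntegrable'
        apply (hg.mono hsub).continuousOn.mono
        intro ξ hξ
        simp at hξ ⊢
        linarith
    have hpart : ∀ L : ℂ →L[ℝ] ℝ, (∀ x : ℂ, |L x| ≤ ‖x‖) → BPsh Om (fun v => L (f v)) M := by
      intro L hL
      refine ⟨?_, ?_, ?_⟩
      · have : ContinuousOn (fun v => L (f v)) Om := L.continuous.comp_continuousOn hf.continuousOn
        exact this.upperSemicontinuousOn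
      · intro v hv
        exact (hL _).trans (hM v hv)
      · intro a b hab
        obtain ⟨h1, h2⟩ := hmean a b hab
        rw [form_eq (fun v => L (f v)) a b]
        rw [show Real.circleAverage (fun ξ : ℂ => L (f (a + ξ • b))) 0 1 =
          L (Real.circleAverage (fun ξ : ℂ => f (a + ξ • b)) 0 1) from ?_, h1]
        rw [Real.circleAverage_def, Real.circleAverage_def, L.map_smul]
        congr 1
        exact L.intervalIntegral_comp_comm h2
    have hre := hpart Complex.reCLM (fun x => Complex.abs_re_le_norm x)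
    have him := hpart Complex.imCLM (fun x => Complex.abs_im_le_norm x)
    apply Complex.ext
    · exact (eq_zero_val hre hz).trans (eq_zero_val hre hw).symm
    · exact (eq_zero_val him hz).trans (eq_zero_val him hw).symm

end Pool.Agent.Results.MP_09af40_an.FiniteVolume
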